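import Pool.Agent.H26.QQ.Targets

/-!
# Triples with one dusty entry (MP_7ecdd4_nt): row PGH
-/

set_option autoImplicit false

open Finset MvPolynomial

namespace Pool.Agent.H25.QQ

open Pool.Agent.H29.FX Pool.Agent.H26.QQ
open Pool.Agent.H38.AE.Statement

theorem pf_PGH : T_PGH := by
  intro η Y T E γ N hη hT hY hN hr
  by_contra hcon
  push Not at hcon
  have hY0 : 0 < Y := by linarith
  have hY1 : 1 < Y := by linarith
  obtain ⟨d, hd⟩ : ∃ d : ℕ → ℝ, d = fun t => ∏ p ∈ du (E t) (γ t) Y N, (p : ℝ) := ⟨_, rfl⟩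
  have hstep : ∀ t, t < T → Y ^ η * d (t + 1) < d t := by
    intro t ht
    rw [hd]
    exact hcon t ht
  have hge : ∀ t, 1 ≤ d t := by
    intro t
    rw [hd]
    have h1 : 0 < ∏ p ∈ du (E t) (γ t) Y N, p := Finset.prod_pos fun p hp =>
      (Nat.mem_primeFactors.1 (Finset.mem_filter.1 hp).1).1.pos
    have h2 : (1 : ℝ) ≤ ((∏ p ∈ du (E t) (γ t) Y N, p : ℕ) : ℝ) := by exact_mod_cast h1
    rwa [Nat.cast_prod] at h2
  have hle : d 0 ≤ radical N := by
    rw [hd]
    have h1 : ∏ p ∈ du (E 0) (γ 0) Y N, p ≤ radical N := by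
      unfold radical
      refine Finset.prod_le_prod_of_subset_of_one_le' (Finset.filter_subset _ _) ?_
      intro p hp _
      exact (Nat.mem_primeFactors.1 hp).1.one_lt.le
    have h2 : ((∏ p ∈ du (E 0) (γ 0) Y N, p : ℕ) : ℝ) ≤ (radical N : ℝ) := by
      exact_mod_cast h1
    rwa [Nat.cast_prod] at h2
  have hT0 : T ≠ 0 := by
    rintro rfl
    simp at hT
    linarith
  have hind : ∀ t, t ≤ T → 1 ≤ t → Y ^ ((t : ℝ) * η) * d t < d 0 := by
    intro t
    induction t with
    | zero => intro _ h; omega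
    | succ t ih =>
      intro h1 _
      have h2 := hstep t (by omega)
      have e1 : Y ^ (((t + 1 : ℕ) : ℝ) * η) = Y ^ ((t : ℝ) * η) * Y ^ η := by
        rw [← Real.rpow_add hY0]
        congr 1
        push_cast
        ring
      rw [e1]
      rcases Nat.eq_zero_or_pos t with h0 | h0
      · subst h0
        simpa using h2
      · have h3 := ih (by omega) h0
        have h4 : 0 < Y ^ ((t : ℝ) * η) := Real.rpow_pos_of_pos hY0 _
        calc Y ^ ((t : ℝ) * η) * Y ^ η * d (t + 1) = Y ^ ((t : ℝ) * η) * (Y ^ η * d (t + 1)) := by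
              ring
          _ ≤ Y ^ ((t : ℝ) * η) * d t := mul_le_mul_of_nonneg_left h2.le h4.le
          _ < d 0 := h3
  have h1 := hind T le_rfl (by omega)
  have h2 : Y ≤ Y ^ ((T : ℝ) * η) := by
    conv_lhs => rw [← Real.rpow_one Y]
    exact Real.rpow_le_rpow_of_exponent_le hY1.le hT
  have h3 := hge T
  have h4 : Y * 1 ≤ Y ^ ((T : ℝ) * η) * d T :=
    mul_le_mul h2 h3 zero_le_one (by positivity)
  linarith

end Pool.Agent.H25.QQ
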